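import Pool.Agent.Helper97.EcfAna2

universe u

namespace Pool.Agent.Results.MP_0b4ff1_lc.ExactLocation

open Pool.Agent.Helper97.Ecf

/-- The set of elementary canonical modal formulas is many-one equivalent to the set of valid
formulas of full second-order logic; every set definable in second-order arithmetic is many-one
reducible to it; its set of Goedel numbers is not definable in second-order arithmetic; and it
is undecidable. -/
theorem result : ManyOneEquiv ECF.{u} SOValid.{u} ∧
    (∀ S : ℕ → Prop, Analytical S → ManyOneReducible S ECF.{u}) ∧
    (¬ Analytical fun n => ECF.{u} (decF n)) ∧ ¬ ComputablePred ECF.{u} :=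
  ecf_location

end Pool.Agent.Results.MP_0b4ff1_lc.ExactLocation
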